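import Mathlib

/-!
# Equal sums of sixth powers and of squares that violate the three quadratic relations

`68^2 + 249^2 + 289^2 = 125^2 + 211^2 + 300^2` and
`68^6 + 249^6 + 289^6 = 125^6 + 211^6 + 300^6`, but no arrangement of these numbers (signs,
permutations inside each triple, exchange of the two triples) satisfies the relations (R).
So there is a nontrivial integer solution of (S) that does not satisfy (R) up to symmetry, and the
assertion of Q1 is false.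
-/

set_option autoImplicit false

namespace Pool.Agent.Results.MP_befb39_nt.Counterexample

/-- `(x 0, x 1, x 2, y 0, y 1, y 2)` satisfies both equations (S) -/
def IsSolution (x y : Fin 3 → ℤ) : Prop :=
  y 0 ^ 6 + y 1 ^ 6 + y 2 ^ 6 = x 0 ^ 6 + x 1 ^ 6 + x 2 ^ 6 ∧
    y 0 ^ 2 + y 1 ^ 2 + y 2 ^ 2 = x 0 ^ 2 + x 1 ^ 2 + x 2 ^ 2

/-- the solution is trivial: the multisets of squares agree -/
def IsTrivial (x y : Fin 3 → ℤ) : Prop :=
  ({x 0 ^ 2, x 1 ^ 2, x 2 ^ 2} : Multiset ℤ) = {y 0 ^ 2, y 1 ^ 2, y 2 ^ 2}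

/-- the three relations (R) for `(a, b, c, d, e, f)` -/
def SatisfiesR (a b c d e f : ℤ) : Prop :=
  f ^ 2 + f * c - c ^ 2 = a ^ 2 + a * d - d ^ 2 ∧
  d ^ 2 + d * a - a ^ 2 = b ^ 2 + b * e - e ^ 2 ∧
  e ^ 2 + e * b - b ^ 2 = c ^ 2 + c * f - f ^ 2

/-- `x'` is obtained from `x` by a permutation of the three entries and changes of signs -/
def SignedPerm (x x' : Fin 3 → ℤ) : Prop :=
  ∃ (σ : Equiv.Perm (Fin 3)) (ε : Fin 3 → ℤ), (∀ i, ε i = 1 ∨ ε i = -1) ∧
    ∀ i, x' i = ε i * x (σ i)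

/-- some sextuple obtained from `(x, y)` by sign changes, permutations inside the two triples and
exchanging the triples satisfies (R) -/
def SatisfiesRUpToSymmetry (x y : Fin 3 → ℤ) : Prop :=
  ∃ x' y' : Fin 3 → ℤ, ((SignedPerm x x' ∧ SignedPerm y y') ∨ (SignedPerm y x' ∧ SignedPerm x y')) ∧
    SatisfiesR (x' 0) (x' 1) (x' 2) (y' 0) (y' 1) (y' 2)

instance (a b c d e f : ℤ) : Decidable (SatisfiesR a b c d e f) := by
  unfold SatisfiesR; infer_instance

def A : List ℤ := [68, -68, 249, -249, 289, -289]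
def B : List ℤ := [125, -125, 211, -211, 300, -300]

lemma check1 : ∀ a ∈ A, ∀ d ∈ B, ∀ c ∈ A, ∀ f ∈ B,
    f ^ 2 + f * c - c ^ 2 = a ^ 2 + a * d - d ^ 2 →
    ∀ b ∈ A, ∀ e ∈ B, ¬ SatisfiesR a b c d e f := by
  decide +kernel

lemma check2 : ∀ a ∈ B, ∀ d ∈ A, ∀ c ∈ B, ∀ f ∈ A,
    f ^ 2 + f * c - c ^ 2 = a ^ 2 + a * d - d ^ 2 →
    ∀ b ∈ B, ∀ e ∈ A, ¬ SatisfiesR a b c d e f := by
  decide +kernel

lemma mem_A {x' : Fin 3 → ℤ} (h : SignedPerm ![68, 249, 289] x') (i : Fin 3) : x' i ∈ A := by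
  obtain ⟨σ, ε, hε, hx⟩ := h
  rw [hx i]
  generalize σ i = j
  rcases hε i with h | h <;> rw [h] <;> fin_cases j <;> decide

lemma mem_B {x' : Fin 3 → ℤ} (h : SignedPerm ![125, 211, 300] x') (i : Fin 3) : x' i ∈ B := by
  obtain ⟨σ, ε, hε, hx⟩ := h
  rw [hx i]
  generalize σ i = j
  rcases hε i with h | h <;> rw [h] <;> fin_cases j <;> decide

/-- There is a nontrivial integer solution of (S), namely `68, 249, 289; 125, 211, 300`, that does
not satisfy (R) up to symmetry. -/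
theorem result : ∃ x y : Fin 3 → ℤ, IsSolution x y ∧ ¬ IsTrivial x y ∧
    ¬ SatisfiesRUpToSymmetry x y := by
  refine ⟨![68, 249, 289], ![125, 211, 300], ?_, ?_, ?_⟩
  · constructor <;> simp
  · unfold IsTrivial
    decide
  · rintro ⟨x', y', h | h, hR⟩
    · exact check1 _ (mem_A h.1 0) _ (mem_B h.2 0) _ (mem_A h.1 2) _ (mem_B h.2 2) hR.1 _
        (mem_A h.1 1) _ (mem_B h.2 1) hR
    · exact check2 _ (mem_B h.1 0) _ (mem_A h.2 0) _ (mem_B h.1 2) _ (mem_A h.2 2) hR.1 _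
        (mem_B h.1 1) _ (mem_A h.2 1) hR

end Pool.Agent.Results.MP_befb39_nt.Counterexample
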